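import Mathlib

set_option autoImplicit false

/-!
Derivations of the function field of an affine variety with prescribed values at a transcendence basis.
-/

namespace Pool.Agent.J4H74.K2

open scoped TensorProduct

/-- derivations extend along formally étale algebras -/
lemma exists_ext {S T : Type} [CommRing S] [CommRing T] [Algebra ℂ S] [Algebra ℂ T] [Algebra S T]
    [IsScalarTower ℂ S T] [Algebra.FormallyEtale S T] (d : Derivation ℂ S T) :
    ∃ D : Derivation ℂ T T, ∀ s, D (algebraMap S T s) = d s := by
  set e := KaehlerDifferential.tensorKaehlerEquivOfFormallyEtale ℂ S T with he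
  set l : T ⊗[S] Ω[S⁄ℂ] →ₗ[T] T := LinearMap.liftBaseChange T d.liftKaehlerDifferential with hl
  refine ⟨(l ∘ₗ e.symm.toLinearMap).compDer (KaehlerDifferential.D ℂ T), fun s => ?_⟩
  change l (e.symm (KaehlerDifferential.D ℂ T (algebraMap S T s))) = d s
  rw [he, KaehlerDifferential.tensorKaehlerEquivOfFormallyEtale_symm_D_algebraMap, hl,
    LinearMap.liftBaseChange_tmul, one_smul, Derivation.liftKaehlerDifferential_comp_D]

end Pool.Agent.J4H74.K2
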