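import Pool.Agent.J4H69.K2.Stm
import Pool.Agent.J4H74.K2.Der

set_option autoImplicit false

/-!
A Jacobian is not zero.
-/

namespace Pool.Agent.J4H74.K2

open Pool.Agent.J4H69.K1 Pool.Agent.J4H69.K2

/-- derivations of a field algebraic over the values of finitely many variables -/
lemma exists_der_abs {K : Type} [Field K] [Algebra ℂ K] (ε : Pol →ₐ[ℂ] K) {m : ℕ}
    (φ : MvPolynomial (Fin m) ℂ →ₐ[ℂ] K) (hinj0 : ∀ x, φ x = 0 → x = 0)
    (halg : ∀ U : Pol, ∃ E : Polynomial (MvPolynomial (Fin m) ℂ), E ≠ 0 ∧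
      E.eval₂ (φ : MvPolynomial (Fin m) ℂ →+* K) (ε U) = 0)
    (hdiv : ∀ x : K, ∃ U V : Pol, x = ε U / ε V)
    (c : Fin m → K) : ∃ D : Derivation ℂ K K, ∀ b, D (φ (MvPolynomial.X b)) = c b := by
  classical
  let : Algebra (MvPolynomial (Fin m) ℂ) K := (φ : MvPolynomial (Fin m) ℂ →+* K).toAlgebra
  have hmap : ∀ x : MvPolynomial (Fin m) ℂ, algebraMap (MvPolynomial (Fin m) ℂ) K x = φ x :=
    fun x => rfl
  have : IsScalarTower ℂ (MvPolynomial (Fin m) ℂ) K := IsScalarTower.of_algebraMap_eq fun x => by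
    rw [hmap, AlgHom.commutes]
  have hinj : Function.Injective (algebraMap (MvPolynomial (Fin m) ℂ) K) := by
    rw [injective_iff_map_eq_zero]
    intro x hx
    rw [hmap] at hx
    exact hinj0 x hx
  have : FaithfulSMul (MvPolynomial (Fin m) ℂ) K :=
    (faithfulSMul_iff_algebraMap_injective (MvPolynomial (Fin m) ℂ) K).2 hinj
  have halgS : Algebra.IsAlgebraic (MvPolynomial (Fin m) ℂ) K := by
    have h1 : ∀ U : Pol, IsAlgebraic (MvPolynomial (Fin m) ℂ) (ε U) := by
      intro U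
      obtain ⟨E, hE, hEU⟩ := halg U
      refine ⟨E, hE, ?_⟩
      rw [Polynomial.aeval_def]
      exact hEU
    refine ⟨fun x => ?_⟩
    obtain ⟨U, V, rfl⟩ := hdiv x
    rw [div_eq_mul_inv]
    exact (h1 U).mul (h1 V).inv
  let : Algebra (FractionRing (MvPolynomial (Fin m) ℂ)) K :=
    FractionRing.liftAlgebra (MvPolynomial (Fin m) ℂ) K
  have : IsScalarTower (MvPolynomial (Fin m) ℂ) (FractionRing (MvPolynomial (Fin m) ℂ)) K :=
    FractionRing.isScalarTower_liftAlgebra (MvPolynomial (Fin m) ℂ) K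
  have : Algebra.IsAlgebraic (FractionRing (MvPolynomial (Fin m) ℂ)) K :=
    (IsFractionRing.comap_isAlgebraic_iff (A := MvPolynomial (Fin m) ℂ)
      (K := FractionRing (MvPolynomial (Fin m) ℂ)) (C := K)).1 halgS
  have : CharZero (FractionRing (MvPolynomial (Fin m) ℂ)) :=
    charZero_of_injective_algebraMap
      (FaithfulSMul.algebraMap_injective ℂ (FractionRing (MvPolynomial (Fin m) ℂ)))
  have : Algebra.IsSeparable (FractionRing (MvPolynomial (Fin m) ℂ)) K := inferInstance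
  have : Algebra.FormallyEtale (FractionRing (MvPolynomial (Fin m) ℂ)) K :=
    Algebra.FormallyEtale.of_isSeparable (FractionRing (MvPolynomial (Fin m) ℂ)) K
  have : Algebra.FormallyEtale (MvPolynomial (Fin m) ℂ) (FractionRing (MvPolynomial (Fin m) ℂ)) :=
    Algebra.FormallyEtale.of_isLocalization (nonZeroDivisors (MvPolynomial (Fin m) ℂ))
  have : Algebra.FormallyEtale (MvPolynomial (Fin m) ℂ) K :=
    Algebra.FormallyEtale.comp (MvPolynomial (Fin m) ℂ) (FractionRing (MvPolynomial (Fin m) ℂ)) K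
  obtain ⟨D, hD⟩ := exists_ext (S := MvPolynomial (Fin m) ℂ) (T := K) (MvPolynomial.mkDerivation ℂ c)
  refine ⟨D, fun b => ?_⟩
  have h1 := hD (MvPolynomial.X b)
  rw [hmap, MvPolynomial.mkDerivation_X] at h1
  exact h1

/-- the ring homomorphism to the function field, a derivation with given values -/
lemma exists_der {I : Ideal Pol} (hI : I.IsPrime) {m : ℕ} {s : Fin m → Fin 3 ⊕ Fin 3}
    (hind : Indep I s) (halg : AlgOver I s) :
    ∃ (K : Type) (_ : Field K) (_ : Algebra ℂ K) (ε : Pol →ₐ[ℂ] K), (∀ P, ε P = 0 ↔ P ∈ I) ∧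
      ∀ c : Fin m → K, ∃ D : Derivation ℂ K K, ∀ b, D (ε (MvPolynomial.X (s b))) = c b := by
  classical
  have hdom : IsDomain (Pol ⧸ I) := Ideal.Quotient.isDomain I
  obtain ⟨K, i1, i2, ε, hε0, hdiv⟩ : ∃ (K : Type) (_ : Field K) (_ : Algebra ℂ K) (ε : Pol →ₐ[ℂ] K),
      (∀ P, ε P = 0 ↔ P ∈ I) ∧ ∀ x : K, ∃ U V : Pol, x = ε U / ε V := by
    refine ⟨FractionRing (Pol ⧸ I), inferInstance, inferInstance,
      (IsScalarTower.toAlgHom ℂ (Pol ⧸ I) (FractionRing (Pol ⧸ I))).comp (Ideal.Quotient.mkₐ ℂ I),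
      fun P => ?_, fun x => ?_⟩
    · change algebraMap (Pol ⧸ I) (FractionRing (Pol ⧸ I)) (Ideal.Quotient.mk I P) = 0 ↔ P ∈ I
      rw [FaithfulSMul.algebraMap_eq_zero_iff, Ideal.Quotient.eq_zero_iff_mem]
    · obtain ⟨a, b, -, rfl⟩ := IsFractionRing.div_surjective (A := Pol ⧸ I) x
      obtain ⟨U, rfl⟩ := Ideal.Quotient.mk_surjective a
      obtain ⟨V, rfl⟩ := Ideal.Quotient.mk_surjective b
      exact ⟨U, V, rfl⟩
  refine ⟨K, i1, i2, ε, hε0, fun c => ?_⟩
  obtain ⟨D, hD⟩ := exists_der_abs ε (ε.comp (MvPolynomial.rename s))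
    (fun x hx => hind x ((hε0 _).1 hx)) (fun U => by
      obtain ⟨E, hE, hEU⟩ := halg U
      refine ⟨E, hE, ?_⟩
      rw [← hε0] at hEU
      rw [← hEU, Polynomial.eval_map, ← AlgHom.coe_toRingHom ε, Polynomial.hom_eval₂]
      rfl) hdiv c
  refine ⟨D, fun b => ?_⟩
  have h1 := hD b
  rw [AlgHom.comp_apply, MvPolynomial.rename_X] at h1
  exact h1

/-- the chain rule -/
lemma chain {K : Type} [Field K] [Algebra ℂ K] (ε : Pol →ₐ[ℂ] K) (D : Derivation ℂ K K)
    (P : Pol) : D (ε P) = ∑ v, ε (MvPolynomial.pderiv v P) * D (ε (MvPolynomial.X v)) := by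
  classical
  induction P using MvPolynomial.induction_on with
  | C a =>
    have h1 : ε (MvPolynomial.C a) = algebraMap ℂ K a := by
      rw [← MvPolynomial.algebraMap_eq, ε.commutes]
    rw [h1, D.map_algebraMap]
    simp
  | add p q hp hq =>
    simp only [map_add, add_mul, Finset.sum_add_distrib, hp, hq]
  | mul_X p i hp =>
    rw [map_mul, D.leibniz, smul_eq_mul, smul_eq_mul, hp, Finset.mul_sum]
    have h1 : ∀ v, ε (MvPolynomial.pderiv v (p * MvPolynomial.X i)) * D (ε (MvPolynomial.X v)) =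
        (if v = i then ε p * D (ε (MvPolynomial.X i)) else 0) +
          ε (MvPolynomial.X i) * (ε (MvPolynomial.pderiv v p) * D (ε (MvPolynomial.X v))) := by
      intro v
      rw [Derivation.leibniz, smul_eq_mul, smul_eq_mul, map_add, map_mul, map_mul,
        MvPolynomial.pderiv_X]
      by_cases hv : v = i
      · subst hv
        simp
        ring
      · rw [Pi.single_eq_of_ne' hv, if_neg hv, map_zero]
        ring
    simp only [h1]
    rw [Finset.sum_add_distrib, Finset.sum_ite_eq' Finset.univ i]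
    simp

lemma sum3 {M : Type} [AddCommMonoid M] {i j k : Fin 3} (hij : i ≠ j) (hik : i ≠ k) (hjk : j ≠ k)
    (f : Fin 3 → M) : ∑ x, f x = f i + (f j + f k) := by
  have h1 : (Finset.univ : Finset (Fin 3)) = {i, j, k} := by
    revert i j k
    decide
  rw [h1, Finset.sum_insert (by simp [hij, hik]), Finset.sum_insert (by simp [hjk]),
    Finset.sum_singleton]

theorem t_JAC : S_JAC := by
  classical
  intro I hI i j k hij hik hjk hind halg P P' hP hP' hsP hsP' hPj hPk
  obtain ⟨K, _, _, ε, hε, hD⟩ := exists_der hI hind halg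
  obtain ⟨D, hDv⟩ := hD ![0, 1, 0]
  obtain ⟨D', hDv'⟩ := hD ![0, 0, 1]
  have e1 : D (ε (MvPolynomial.X (Sum.inl j))) = 0 := hDv 0
  have e2 : D (ε (MvPolynomial.X (Sum.inr j))) = 1 := hDv 1
  have e3 : D (ε (MvPolynomial.X (Sum.inr k))) = 0 := hDv 2
  have e1' : D' (ε (MvPolynomial.X (Sum.inl j))) = 0 := hDv' 0
  have e2' : D' (ε (MvPolynomial.X (Sum.inr j))) = 0 := hDv' 1
  have e3' : D' (ε (MvPolynomial.X (Sum.inr k))) = 1 := hDv' 2
  have z : ∀ {Q : Pol} {T : Set (Fin 3 ⊕ Fin 3)} {v : Fin 3 ⊕ Fin 3},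
      Q ∈ MvPolynomial.supported ℂ T → v ∉ T → MvPolynomial.pderiv v Q = 0 := by
    intro Q T v hQ hv
    apply MvPolynomial.pderiv_eq_zero_of_notMem_vars
    intro h1
    exact hv (MvPolynomial.mem_supported.1 hQ h1)
  have a1 : MvPolynomial.pderiv (Sum.inl k) P = 0 := z hsP (by simp [hik.symm, hjk.symm])
  have a2 : MvPolynomial.pderiv (Sum.inr k) P = 0 := z hsP (by simp [hik.symm, hjk.symm])
  have b1 : MvPolynomial.pderiv (Sum.inl k) P' = 0 := z hsP' (by simp [hik.symm, hjk.symm])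
  have b2 : MvPolynomial.pderiv (Sum.inr j) P' = 0 := z hsP' (by simp [hij.symm, hjk])
  have main : ∀ (Q : Pol) (Δ : Derivation ℂ K K), Q ∈ I →
      (ε (MvPolynomial.pderiv (Sum.inl i) Q) * Δ (ε (MvPolynomial.X (Sum.inl i))) +
        (ε (MvPolynomial.pderiv (Sum.inl j) Q) * Δ (ε (MvPolynomial.X (Sum.inl j))) +
          ε (MvPolynomial.pderiv (Sum.inl k) Q) * Δ (ε (MvPolynomial.X (Sum.inl k))))) +
      (ε (MvPolynomial.pderiv (Sum.inr i) Q) * Δ (ε (MvPolynomial.X (Sum.inr i))) +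
        (ε (MvPolynomial.pderiv (Sum.inr j) Q) * Δ (ε (MvPolynomial.X (Sum.inr j))) +
          ε (MvPolynomial.pderiv (Sum.inr k) Q) * Δ (ε (MvPolynomial.X (Sum.inr k))))) = 0 := by
    intro Q Δ hQ
    have h1 := chain ε Δ Q
    rw [(hε Q).2 hQ, map_zero, Fintype.sum_sum_type, sum3 hij hik hjk, sum3 hij hik hjk] at h1
    exact h1.symm
  have m1 := main P D hP
  have m2 := main P D' hP
  have m3 := main P' D hP'
  have m4 := main P' D' hP'
  rw [a1, a2, e1, e2, e3, map_zero] at m1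
  rw [a1, a2, e1', e2', e3', map_zero] at m2
  rw [b1, b2, e1, e2, e3, map_zero] at m3
  rw [b1, b2, e1', e2', e3', map_zero] at m4
  have c1 : ε (MvPolynomial.pderiv (Sum.inr j) P) ≠ 0 := fun h0 => hPj ((hε _).1 h0)
  have c2 : ε (MvPolynomial.pderiv (Sum.inr k) P') ≠ 0 := fun h0 => hPk ((hε _).1 h0)
  intro hmem
  rw [← hε, map_sub, map_mul, map_mul] at hmem
  apply mul_ne_zero c1 c2
  generalize ε (MvPolynomial.pderiv (Sum.inl i) P) = p1 at *
  generalize ε (MvPolynomial.pderiv (Sum.inr i) P) = p2 at *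
  generalize ε (MvPolynomial.pderiv (Sum.inl i) P') = q1 at *
  generalize ε (MvPolynomial.pderiv (Sum.inr i) P') = q2 at *
  generalize D (ε (MvPolynomial.X (Sum.inl i))) = a at *
  generalize D (ε (MvPolynomial.X (Sum.inr i))) = b at *
  generalize D' (ε (MvPolynomial.X (Sum.inl i))) = a' at *
  generalize D' (ε (MvPolynomial.X (Sum.inr i))) = b' at *
  generalize ε (MvPolynomial.pderiv (Sum.inr j) P) = p4 at *
  generalize ε (MvPolynomial.pderiv (Sum.inr k) P') = q4 at *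
  have n1 : p1 * a + p2 * b = -p4 := by linear_combination m1
  have n2 : p1 * a' + p2 * b' = 0 := by linear_combination m2
  have n3 : q1 * a + q2 * b = 0 := by linear_combination m3
  have n4 : q1 * a' + q2 * b' = -q4 := by linear_combination m4
  have n5 : (p1 * q2 - p2 * q1) * (a * b' - a' * b) =
      (p1 * a + p2 * b) * (q1 * a' + q2 * b') - (p1 * a' + p2 * b') * (q1 * a + q2 * b) := by
    ring
  rw [hmem, n1, n2, n3, n4] at n5
  linear_combination -n5

end Pool.Agent.J4H74.K2
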